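import Mathlib
import Pool.Agent.H25.Sync7

set_option autoImplicit false

open Equiv Finset

namespace Pool.Agent.Results.MP_713645_co.EvenPermutations

/-- Number of descents of `π` written in one-line notation `π 0, ..., π (n-1)`. -/
def descents {n : ℕ} (π : Perm (Fin n)) : ℕ :=
  (univ.filter (fun i : Fin n => ∃ h : (i : ℕ) + 1 < n, π ⟨(i : ℕ) + 1, h⟩ < π i)).card

/-- Number of excedances of `π`. -/
def excedances {n : ℕ} (π : Perm (Fin n)) : ℕ := (univ.filter (fun i => i < π i)).card

/-- Number of even permutations with `k` descents. -/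
def evenDescents (n k : ℕ) : ℕ :=
  (univ.filter (fun π : Perm (Fin n) => Perm.sign π = 1 ∧ descents π = k)).card

/-- Number of even permutations with `k` excedances. -/
def evenExcedances (n k : ℕ) : ℕ :=
  (univ.filter (fun π : Perm (Fin n) => Perm.sign π = 1 ∧ excedances π = k)).card

/-- Strong synchronisation of the sequences `a 0, ..., a m` and `b 0, ..., b m`. -/
def StronglySynchronised (m : ℕ) (a b : ℕ → ℕ) : Prop :=
  ∀ k, 1 ≤ k → k + 1 ≤ m →
    max (a (k - 1)) (b (k - 1)) * max (a (k + 1)) (b (k + 1)) ≤ (min (a k) (b k)) ^ 2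

/-- For every positive `n` the descent numbers and the excedance numbers of the even
permutations of `n` letters are strongly synchronised. -/
theorem result : ∀ n : ℕ, 1 ≤ n →
    StronglySynchronised (n - 1) (evenDescents n) (evenExcedances n) := by
  intro n hn k hk hkn
  obtain ⟨k, rfl⟩ : ∃ k', k = k' + 1 := ⟨k - 1, by omega⟩
  rw [Nat.add_sub_cancel]
  apply Pool.Agent.H25.Sync.halve
  have e1 : ∀ j, (2 * evenDescents n j : ℤ)
      = Pool.Agent.H25.Sync.eu n j + Pool.Agent.H25.Sync.ds n j := fun j =>
    Pool.Agent.H25.Sync.des_plus n j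
  have e2 : ∀ j, (2 * evenExcedances n j : ℤ)
      = Pool.Agent.H25.Sync.eu n j + Pool.Agent.H25.Sync.es n j := fun j =>
    Pool.Agent.H25.Sync.exc_plus n j
  rw [e1, e1, e1, e2, e2, e2]
  exact Pool.Agent.H25.Sync.sync_plus n k (by omega)

end Pool.Agent.Results.MP_713645_co.EvenPermutations
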